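import Pool.Agent.helper52.WP.SpecL

/-!
# Project wp: (MP_af9036_an), module ALC (copy of helper78/XP/ALC.lean)
-/

set_option autoImplicit false

open Complex Metric Set Filter Topology MeasureTheory
open V3S (UF)
open WP

noncomputable section

namespace WPL

theorem ALC (hSTP : STP_stmt) (hREG : REG_stmt) : ALC_stmt := by
  intro n C D hC hS hLB hST
  obtain ⟨x₀, hx₀, hC₀⟩ := hST
  obtain ⟨_, hconn, _⟩ := hREG n C D hC hS hLB
  by_contra hcon
  push Not at hcon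
  obtain ⟨x₁, hx₁, hC₁⟩ := hcon
  set u : Set ℂ := {x | ∃ ε > (0 : ℝ), ∀ y ∈ ball x ε, CTL D y} with hu
  set v : Set ℂ := {x | ∃ ε > (0 : ℝ), ∀ y ∈ ball x ε, ¬ CTL D y} with hv
  have hop : ∀ P : ℂ → Prop, IsOpen {x : ℂ | ∃ ε > (0 : ℝ), ∀ y ∈ ball x ε, P y} := by
    intro P
    rw [Metric.isOpen_iff]
    rintro x ⟨ε, hε, h⟩
    refine ⟨ε / 2, by linarith, fun y hy => ⟨ε / 2, by linarith, fun z hz => h z ?_⟩⟩
    rw [mem_ball] at hy hz ⊢
    calc dist z x ≤ dist z y + dist y x := dist_triangle _ _ _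
      _ < ε := by linarith
  have hsub : Reg D ⊆ u ∪ v := by
    intro x hx
    obtain ⟨η, hη, h⟩ := hSTP n C D hC hS hLB x hx
    by_cases hCx : CTL D x
    · left
      exact ⟨η, hη, fun y hy => h x (mem_ball_self hη) hCx y hy⟩
    · right
      exact ⟨η, hη, fun y hy hCy => hCx (h y hy hCy x (mem_ball_self hη))⟩
  have h0 : x₀ ∈ u := by
    rcases hsub hx₀ with h | ⟨ε, hε, h⟩
    · exact h
    · exact absurd hC₀ (h x₀ (mem_ball_self hε))
  have h1 : x₁ ∈ v := by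
    rcases hsub hx₁ with ⟨ε, hε, h⟩ | h
    · exact absurd (h x₁ (mem_ball_self hε)) hC₁
    · exact h
  obtain ⟨z, _, ⟨ε, hε, h2⟩, ⟨ε', hε', h3⟩⟩ := hconn u v (hop _) (hop _) hsub ⟨x₀, hx₀, h0⟩ ⟨x₁, hx₁, h1⟩
  exact h3 z (mem_ball_self hε') (h2 z (mem_ball_self hε))

end WPL
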