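import Pool.Agent.helper52.WP.SpecN

/-!
# Project wp: (MP_af9036_an), module NME: the limit is meromorphic
-/

set_option autoImplicit false

open Complex Metric Set Filter Topology MeasureTheory
open V3S (UF)
open WP

noncomputable section

namespace WPN

/-- one function: multiply by the product over the near poles and use the maximum principle. -/
theorem NME_one (hTBX : V3.TBX_stmt) {ι : Type} [DecidableEq ι] (S : Finset ι) (P g : ι → ℂ) (a : ℂ) (t K δ : ℝ) (N : ℕ)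
    (ht : 0 < t) (ht' : t ≤ 1 / 2) (hsp : ∀ l ∈ S, ‖P l - a‖ < t ∨ 2 * t < ‖P l - a‖)
    (hN : (S.filter (fun l => ‖P l - a‖ < t)).card ≤ N)
    (hK : ∀ x ∈ sphere a t, ‖∑ l ∈ S, g l / (x - P l)‖ ≤ K) (hδ : 0 < δ) (hδ1 : δ ≤ 1)
    (x : ℂ) (hx : x ∈ ball a t) (hxd : ∀ l ∈ S, ‖P l - a‖ < t → δ ≤ ‖x - P l‖) :
    δ ^ N * ‖∑ l ∈ S, g l / (x - P l)‖ ≤ K := by
  classical
  set L := S.filter (fun l => ‖P l - a‖ < t) with hL
  set M := S.filter (fun l => ¬ ‖P l - a‖ < t) with hM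
  set R : ℂ → ℂ := fun y => ∑ l ∈ L, g l * ∏ l' ∈ L.erase l, (y - P l') +
    (∏ l ∈ L, (y - P l)) * ∑ l ∈ M, g l / (y - P l) with hR
  have hRB : ∀ y : ℂ, (∀ l ∈ L, y ≠ P l) → R y = (∏ l ∈ L, (y - P l)) * ∑ l ∈ S, g l / (y - P l) := by
    intro y hy
    have hsplit : ∑ l ∈ S, g l / (y - P l) = ∑ l ∈ L, g l / (y - P l) + ∑ l ∈ M, g l / (y - P l) :=
      (Finset.sum_filter_add_sum_filter_not S _ _).symm
    rw [hsplit, mul_add, hR]
    simp only
    congr 1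
    rw [Finset.mul_sum]
    refine Finset.sum_congr rfl fun l hl => ?_
    have h0 : y - P l ≠ 0 := sub_ne_zero.2 (hy l hl)
    rw [← Finset.mul_prod_erase L (fun l => y - P l) hl]
    field_simp
  have hRd : DifferentiableOn ℂ R (ball a (2 * t)) := by
    intro y hy
    refine DifferentiableAt.differentiableWithinAt ?_
    have hM0 : ∀ l ∈ M, y - P l ≠ 0 := by
      intro l hl h0
      rw [hM, Finset.mem_filter] at hl
      rcases hsp l hl.1 with h | h
      · exact hl.2 h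
      · have : y = P l := sub_eq_zero.1 h0
        rw [mem_ball, dist_eq_norm, this] at hy
        linarith
    refine DifferentiableAt.add ?_ (DifferentiableAt.mul ?_ ?_)
    · refine DifferentiableAt.fun_sum fun l _ => ?_
      refine DifferentiableAt.const_mul ?_ _
      exact DifferentiableAt.fun_finsetProd fun l' _ => by fun_prop
    · exact DifferentiableAt.fun_finsetProd fun l' _ => by fun_prop
    · refine DifferentiableAt.fun_sum fun l hl => ?_
      exact DifferentiableAt.div (by fun_prop) (by fun_prop) (hM0 l hl)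
  have hRK : ∀ y ∈ closedBall a t, ‖R y‖ ≤ K := by
    refine hTBX.1 R a t (2 * t) K ht (by linarith) hRd ?_
    intro y hy
    have hy' : ‖y - a‖ = t := by rwa [mem_sphere, dist_eq_norm] at hy
    have hne : ∀ l ∈ L, y ≠ P l := by
      intro l hl h0
      rw [hL, Finset.mem_filter] at hl
      rw [← h0, hy'] at hl
      exact lt_irrefl _ hl.2
    rw [hRB y hne, norm_mul]
    have hQ : ‖∏ l ∈ L, (y - P l)‖ ≤ 1 := by
      rw [norm_prod]
      refine Finset.prod_le_one (fun _ _ => norm_nonneg _) fun l hl => ?_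
      rw [hL, Finset.mem_filter] at hl
      calc ‖y - P l‖ = ‖(y - a) - (P l - a)‖ := by ring_nf
        _ ≤ ‖y - a‖ + ‖P l - a‖ := norm_sub_le _ _
        _ ≤ 1 := by linarith [hl.2]
    calc ‖∏ l ∈ L, (y - P l)‖ * ‖∑ l ∈ S, g l / (y - P l)‖ ≤ 1 * ‖∑ l ∈ S, g l / (y - P l)‖ :=
          mul_le_mul_of_nonneg_right hQ (norm_nonneg _)
      _ ≤ K := by rw [one_mul]; exact hK y hy
  have hxne : ∀ l ∈ L, x ≠ P l := by
    intro l hl h0
    rw [hL, Finset.mem_filter] at hl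
    have := hxd l hl.1 hl.2
    rw [h0, sub_self, norm_zero] at this
    linarith
  have h1 := hRK x (ball_subset_closedBall hx)
  rw [hRB x hxne, norm_mul] at h1
  have hQx : δ ^ N ≤ ‖∏ l ∈ L, (x - P l)‖ := by
    calc δ ^ N ≤ δ ^ L.card := pow_le_pow_of_le_one hδ.le hδ1 hN
      _ = ∏ _l ∈ L, δ := by rw [Finset.prod_const]
      _ ≤ ∏ l ∈ L, ‖x - P l‖ := by
          refine Finset.prod_le_prod (fun _ _ => hδ.le) fun l hl => ?_
          rw [hL, Finset.mem_filter] at hl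
          exact hxd l hl.1 hl.2
      _ = ‖∏ l ∈ L, (x - P l)‖ := (norm_prod _ _).symm
  exact (mul_le_mul_of_nonneg_right hQx (norm_nonneg _)).trans h1

/-- no dangerous points on a compact set without exceptional points. -/
theorem NME_cpt (D : ℕ → Dat) (hP : ∀ x, x ∉ Pin D → ∃ r > (0 : ℝ), ∀ᶠ m in UF, ∀ y ∈ (D m).Pt, r ≤ ‖y - x‖)
    (A : Set ℂ) (hA : IsCompact A) (hAP : ∀ x ∈ A, x ∉ Pin D) : ∀ᶠ m in UF, ∀ y ∈ (D m).Pt, y ∉ A := by
  choose! r hr hr' using hP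
  obtain ⟨T, hT, hcov⟩ := hA.elim_nhds_subcover (fun x => ball x (r x)) (fun x hx => ball_mem_nhds x (hr x (hAP x hx)))
  have h1 : ∀ᶠ m in UF, ∀ x ∈ T, ∀ y ∈ (D m).Pt, r x ≤ ‖y - x‖ := by
    rw [Filter.eventually_all_finset]
    intro x hx
    exact hr' x (hAP x (hT x hx))
  filter_upwards [h1] with m hm y hy hyA
  obtain ⟨x, hx, hyx⟩ := mem_iUnion₂.1 (hcov hyA)
  rw [mem_ball, dist_eq_norm] at hyx
  linarith [hm x hx y hy]

theorem NME_card (hNPK : V3.NPK_stmt) (c₀ t : ℝ) (hc₀ : 0 < c₀) (ht : 0 < t) (k : ℕ) (P : Fin 3 × ℕ → ℂ) (a : ℂ)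
    (hsep : ∀ i : Fin 3, ∀ j < k, ∀ l < k, j ≠ l → c₀ ≤ ‖P (i, j) - P (i, l)‖) :
    (((Finset.univ : Finset (Fin 3)) ×ˢ Finset.range k).filter (fun l => ‖P l - a‖ < t)).card ≤
      3 * ⌈(1 + 2 * t / c₀) ^ 2⌉₊ := by
  classical
  set L := ((Finset.univ : Finset (Fin 3)) ×ˢ Finset.range k).filter (fun l => ‖P l - a‖ < t) with hL
  have h1 : L.card = ∑ i ∈ (Finset.univ : Finset (Fin 3)), (L.filter (fun l => l.1 = i)).card :=
    Finset.card_eq_sum_card_fiberwise (fun l _ => Finset.mem_univ _)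
  rw [h1]
  have h2 : ∀ i ∈ (Finset.univ : Finset (Fin 3)), (L.filter (fun l => l.1 = i)).card ≤ ⌈(1 + 2 * t / c₀) ^ 2⌉₊ := by
    intro i _
    have h3 := hNPK (Fin 3 × ℕ) (fun l => P l - a) (L.filter (fun l => l.1 = i)) c₀ t hc₀ ht ?_ ?_
    · exact_mod_cast h3.trans (Nat.le_ceil _)
    · rintro ⟨i1, j1⟩ h1' ⟨i2, j2⟩ h2' hne
      simp only [hL, Finset.mem_filter, Finset.mem_product, Finset.mem_univ, Finset.mem_range, true_and] at h1' h2'
      obtain ⟨⟨hj1, _⟩, rfl⟩ := h1'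
      obtain ⟨⟨hj2, _⟩, rfl⟩ := h2'
      have hj : j1 ≠ j2 := fun h => hne (by rw [h])
      have := hsep i2 j1 hj1 j2 hj2 hj
      simpa using this
    · rintro ⟨i1, j1⟩ h1'
      simp only [hL, Finset.mem_filter] at h1'
      exact h1'.1.2
  calc ∑ i ∈ (Finset.univ : Finset (Fin 3)), (L.filter (fun l => l.1 = i)).card
      ≤ ∑ _i ∈ (Finset.univ : Finset (Fin 3)), ⌈(1 + 2 * t / c₀) ^ 2⌉₊ := Finset.sum_le_sum h2
    _ = 3 * ⌈(1 + 2 * t / c₀) ^ 2⌉₊ := by simp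

theorem NME (hNLI : NLI_stmt) (hPIN : WPL.PIN_stmt) (hCB2 : WPC.CB2_stmt) (hNPK : V3.NPK_stmt) (hTBX : V3.TBX_stmt) :
    NME_stmt := by
  classical
  intro n C D hC hS p
  obtain ⟨hdiff, hconv⟩ := hNLI n C D hC hS
  obtain ⟨hP1, _, _, _, _, hP6⟩ := hPIN n C D hC hS
  obtain ⟨c₀, hc₀, K₂, hK₂, hCB⟩ := hCB2 C hC
  obtain ⟨A, _, hgood⟩ := hS.good
  -- the radius
  obtain ⟨t₀, ht₀, ht₀'⟩ : ∃ t₀ > (0 : ℝ), ∀ y ∈ ball p t₀, y ≠ p → y ∉ Pin D := by
    have := hP6 p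
    rw [eventually_nhdsWithin_iff, Metric.eventually_nhds_iff] at this
    obtain ⟨ε, hε, h⟩ := this
    exact ⟨ε, hε, fun y hy hyp => h (mem_ball.1 hy) hyp⟩
  set t : ℝ := min (t₀ / 4) (1 / 4) with ht
  have htpos : 0 < t := lt_min (by linarith) (by norm_num)
  have ht1 : t ≤ 1 / 4 := min_le_right _ _
  have ht2 : 2 * t < t₀ := by
    have : t ≤ t₀ / 4 := min_le_left _ _
    linarith
  have hPin : ∀ y : ℂ, ‖y - p‖ ≤ 2 * t → y ≠ p → y ∉ Pin D := by
    intro y hy hyp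
    exact ht₀' y (by rw [mem_ball, dist_eq_norm]; linarith) hyp
  -- bound on the circle
  have hsph : sphere p t ⊆ (Pin D)ᶜ := by
    intro y hy
    have hy' : ‖y - p‖ = t := by rwa [mem_sphere, dist_eq_norm] at hy
    refine hPin y (by linarith) ?_
    rintro rfl
    rw [sub_self, norm_zero] at hy'
    linarith
  obtain ⟨K₀, hK₀⟩ : ∃ K₀ : ℝ, ∀ y ∈ sphere p t, ‖Bin D y‖ ≤ K₀ :=
    (isCompact_sphere p t).exists_bound_of_continuousOn (hdiff.continuousOn.mono hsph)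
  have hev : ∀ᶠ m in UF, ∀ y ∈ sphere p t, ‖(D m).B y‖ ≤ K₀ + 1 := by
    have h := Metric.tendstoUniformlyOn_iff.1 (hconv _ (isCompact_sphere p t) hsph) 1 one_pos
    filter_upwards [h] with m hm y hy
    have h1 := hm y hy
    rw [dist_eq_norm] at h1
    calc ‖(D m).B y‖ = ‖Bin D y - (Bin D y - (D m).B y)‖ := by ring_nf
      _ ≤ ‖Bin D y‖ + ‖Bin D y - (D m).B y‖ := norm_sub_le _ _
      _ ≤ K₀ + 1 := by linarith [hK₀ y hy]
  set N : ℕ := 3 * ⌈(1 + 2 * t / c₀) ^ 2⌉₊ with hN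
  refine ⟨N, t, (K₀ + 1) * 2 ^ N, htpos, ?_⟩
  intro x hx hxp
  have hxn : ‖x - p‖ < t := by rwa [mem_ball, dist_eq_norm] at hx
  have hxpos : 0 < ‖x - p‖ := norm_pos_iff.2 (sub_ne_zero.2 hxp)
  have hxP : x ∉ Pin D := hPin x (by linarith) hxp
  refine ⟨hxP, ?_⟩
  -- no dangerous point in the annulus
  have hann : ∀ᶠ m in UF, ∀ y ∈ (D m).Pt, y ∉ closedBall p (2 * t) \ ball p (‖x - p‖ / 2) := by
    refine NME_cpt D hP1 _ ((isCompact_closedBall p (2 * t)).diff isOpen_ball) ?_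
    rintro y ⟨hy1, hy2⟩
    rw [mem_closedBall, dist_eq_norm] at hy1
    rw [mem_ball, dist_eq_norm, not_lt] at hy2
    refine hPin y hy1 ?_
    rintro rfl
    rw [sub_self, norm_zero] at hy2
    linarith
  have hmain : ∀ᶠ m in UF, (‖x - p‖ / 2) ^ N * ‖(D m).B x‖ ≤ K₀ + 1 := by
    filter_upwards [hann, hev] with m hm1 hm2
    obtain ⟨_, _, _, _, _, _, hsep, _, _⟩ := hCB n (A m) (D m) (hgood m)
    have hBs : ∀ y : ℂ, (D m).B y = ∑ l ∈ (Finset.univ : Finset (Fin 3)) ×ˢ Finset.range (D m).k,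
        ((D m).s * (D m).g l.1 l.2) / (y - (D m).p l.1 l.2) := by
      intro y
      rw [Finset.sum_product]
      simp only [Dat.B, Dat.B0, Finset.mul_sum]
      refine Finset.sum_congr rfl fun i _ => Finset.sum_congr rfl fun j _ => ?_
      ring
    have hpt : ∀ l ∈ (Finset.univ : Finset (Fin 3)) ×ˢ Finset.range (D m).k, (D m).p l.1 l.2 ∈ (D m).Pt := by
      intro l hl
      rw [Finset.mem_product, Finset.mem_range] at hl
      exact ⟨l.1, l.2, by omega, rfl⟩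
    have key := NME_one hTBX ((Finset.univ : Finset (Fin 3)) ×ˢ Finset.range (D m).k)
      (fun l => (D m).p l.1 l.2) (fun l => (D m).s * (D m).g l.1 l.2) p t (K₀ + 1) (‖x - p‖ / 2) N
      htpos (by linarith) ?_ ?_ ?_ (by linarith) (by linarith) x hx ?_
    · rw [hBs x]; exact key
    · intro l hl
      have h1 := hm1 _ (hpt l hl)
      by_contra hcon
      push Not at hcon
      refine h1 ⟨by rw [mem_closedBall, dist_eq_norm]; exact hcon.2, ?_⟩
      rw [mem_ball, dist_eq_norm, not_lt]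
      linarith [hcon.1]
    · exact NME_card hNPK c₀ t hc₀ htpos (D m).k (fun l => (D m).p l.1 l.2) p
        (fun i j hj l hl hjl => (hsep i j hj l hl hjl).1)
    · intro y hy
      have := hm2 y hy
      rwa [hBs y] at this
    · intro l hl hlt
      have h1 := hm1 _ (hpt l hl)
      have h2 : ‖(D m).p l.1 l.2 - p‖ < ‖x - p‖ / 2 := by
        by_contra hcon
        push Not at hcon
        refine h1 ⟨by rw [mem_closedBall, dist_eq_norm]; linarith, ?_⟩
        rw [mem_ball, dist_eq_norm, not_lt]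
        exact hcon
      have h3 : ‖x - p‖ ≤ ‖x - (D m).p l.1 l.2‖ + ‖(D m).p l.1 l.2 - p‖ := norm_sub_le_norm_sub_add_norm_sub _ _ _
      linarith
  have hlim : Tendsto (fun m => (‖x - p‖ / 2) ^ N * ‖(D m).B x‖) UF (𝓝 ((‖x - p‖ / 2) ^ N * ‖Bin D x‖)) := by
    have h1 : Tendsto (fun m => (D m).B x) UF (𝓝 (Bin D x)) :=
      (hconv {x} isCompact_singleton (by simpa using hxP)).tendsto_at (mem_singleton x)
    exact h1.norm.const_mul _
  have hfin := le_of_tendsto hlim hmain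
  have h2N : (0 : ℝ) < 2 ^ N := by positivity
  calc ‖x - p‖ ^ N * ‖Bin D x‖ = ((‖x - p‖ / 2) ^ N * ‖Bin D x‖) * 2 ^ N := by
        rw [div_pow]; field_simp
    _ ≤ (K₀ + 1) * 2 ^ N := mul_le_mul_of_nonneg_right hfin h2N.le

end WPN
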