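import Pool.Agent.helper52.WP.SpecB

set_option autoImplicit false

open Complex Metric Set Filter Topology MeasureTheory
open V3S (UF)
open WP
open PPS (pre TT fd)
open XPS (Df er)
open Pool.Agent.helper16.Multibrot

noncomputable section

namespace WPB

theorem PRE_near (f : Polynomial ℂ) (k : ℕ) (w : ℂ) (ρ ε : ℝ) (hρ : 0 < ρ)
    (h : ∀ z ∈ ball w ρ, ‖it f k z - z‖ ≤ ε * ρ) :
    ∀ x ∈ ball (0 : ℂ) 1, ‖(it f k (w + (ρ : ℂ) * x) - w) / (ρ : ℂ) - x‖ ≤ ε := by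
  intro x hx
  have hρ' : (ρ : ℂ) ≠ 0 := by exact_mod_cast hρ.ne'
  have hz : w + (ρ : ℂ) * x ∈ ball w ρ := by
    rw [mem_ball, dist_eq_norm]
    have h1 : w + (ρ : ℂ) * x - w = (ρ : ℂ) * x := by ring
    rw [h1, norm_mul, Complex.norm_real, Real.norm_eq_abs, abs_of_pos hρ]
    have h2 : ‖x‖ < 1 := by simpa using hx
    nlinarith
  have h1 := h _ hz
  have h2 : (it f k (w + (ρ : ℂ) * x) - w) / (ρ : ℂ) - x =
      (it f k (w + (ρ : ℂ) * x) - (w + (ρ : ℂ) * x)) / (ρ : ℂ) := by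
    field_simp
    ring
  rw [h2, norm_div, Complex.norm_real, Real.norm_eq_abs, abs_of_pos hρ, div_le_iff₀ hρ]
  exact h1

theorem PRE_der (F : ℂ → ℂ) (ε : ℝ) (hF : Differentiable ℂ F)
    (hε' : ε ≤ 1 / 64) (h : ∀ x ∈ ball (0 : ℂ) 1, ‖F x - x‖ ≤ ε) :
    ∀ x : ℂ, ‖x‖ ≤ 1 / 4 → deriv F x ≠ 0 ∧ ‖1 / deriv F x - 1‖ ≤ 8 * ε := by
  intro x hx
  have hε : 0 ≤ ε := le_trans (norm_nonneg _) (h 0 (by simp))
  have hd : Differentiable ℂ (fun y => F y - y) := hF.sub differentiable_id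
  have h1 : ‖deriv (fun y => F y - y) x‖ ≤ ε / (1 / 2) := by
    apply Complex.norm_deriv_le_of_forall_mem_sphere_norm_le (by norm_num) hd.diffContOnCl
    intro z hz
    apply h
    rw [mem_sphere, dist_eq_norm] at hz
    have h2 : ‖z‖ ≤ ‖z - x‖ + ‖x‖ := by
      calc ‖z‖ = ‖(z - x) + x‖ := by ring_nf
        _ ≤ _ := norm_add_le _ _
    rw [mem_ball_zero_iff]
    linarith
  have h2 : deriv (fun y => F y - y) x = deriv F x - 1 := by
    rw [deriv_fun_sub hF.differentiableAt differentiableAt_fun_id]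
    simp
  rw [h2] at h1
  have h3 : ‖deriv F x - 1‖ ≤ 2 * ε := by linarith
  have h4 : 1 - 2 * ε ≤ ‖deriv F x‖ := by
    have h5 : ‖(1 : ℂ)‖ ≤ ‖deriv F x‖ + ‖deriv F x - 1‖ := by
      calc ‖(1 : ℂ)‖ = ‖deriv F x - (deriv F x - 1)‖ := by ring_nf
        _ ≤ _ := norm_sub_le _ _
    rw [norm_one] at h5
    linarith
  have h5 : 0 < ‖deriv F x‖ := by linarith
  have h6 : deriv F x ≠ 0 := norm_pos_iff.mp h5
  refine ⟨h6, ?_⟩
  have h7 : 1 / deriv F x - 1 = (1 - deriv F x) / deriv F x := by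
    field_simp
  rw [h7, norm_div, div_le_iff₀ h5, norm_sub_rev]
  nlinarith

theorem PRE (hL : LNA_stmt) (hLOC : LOC_stmt) (hCB : WPC.CB1_stmt) : PRE_stmt := by
  intro n c C ε k w ρ hn hc hC hε hε' hG
  have hρ := hG.rho
  set F : ℂ → ℂ := fun x => (it (GR.fp n c) k (w + (ρ : ℂ) * x) - w) / (ρ : ℂ) with hFdef
  have hnear : ∀ x ∈ ball (0 : ℂ) 1, ‖F x - x‖ ≤ ε := PRE_near (GR.fp n c) k w ρ ε hρ hG.near
  have hdF : Differentiable ℂ F := by
    have := (hCB ⟨k, GR.fp n c, w, ρ, fun _ => 0, fun _ => 0, 0, 0, 0, 0⟩ hρ).2.2.2.2.2.2.1 k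
    exact this
  have hder := PRE_der F ε hdF hε' hnear
  set t : ℝ := 1 / (4 * C) with ht
  have hC0 : 0 < C := by linarith
  have ht0 : 0 < t := by positivity
  have ht1 : t ≤ 1 / 4 := by
    rw [ht]
    apply one_div_le_one_div_of_le (by norm_num)
    linarith
  let a : Fin 3 → ℂ := ![0, (t : ℂ), -(t : ℂ)]
  have ha : ∀ i, ‖a i‖ ≤ t := by
    intro i
    fin_cases i
    · simp [a, ht0.le]
    · simp [a, abs_of_pos ht0]
    · simp [a, abs_of_pos ht0]
  have hsep : ∀ i l, i ≠ l → t ≤ ‖a i - a l‖ := by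
    have h2 : ‖(t : ℂ) + t‖ = 2 * t := by
      rw [← Complex.ofReal_add, Complex.norm_real, Real.norm_eq_abs, abs_of_pos (by linarith)]
      ring
    have h3 : ‖-(t : ℂ) - t‖ = 2 * t := by
      rw [show -(t : ℂ) - t = -((t : ℂ) + t) by ring, norm_neg, h2]
    intro i l hil
    fin_cases i <;> fin_cases l
    · exact absurd rfl hil
    · simp [a, abs_of_pos ht0]
    · simp [a, abs_of_pos ht0]
    · simp [a, abs_of_pos ht0]
    · exact absurd rfl hil
    · show t ≤ ‖(t : ℂ) - (-(t : ℂ))‖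
      rw [sub_neg_eq_add, h2]
      linarith
    · simp [a, abs_of_pos ht0]
    · show t ≤ ‖-(t : ℂ) - (t : ℂ)‖
      rw [h3]
      linarith
    · exact absurd rfl hil
  obtain ⟨γ, hγ1, hγ2, hγ3, hγ4⟩ := hL (fun i => 1 - 1 / deriv F (a i)) (fun i => a i - 1 / deriv F (a i) * F (a i))
  refine ⟨a, γ, hγ4, ha, hsep, ?_⟩
  intro rad E s om
  obtain ⟨hw4, hr4⟩ := hLOC n c C ε k w ρ hn hc (by linarith) hG
  exact
    { hn := hn
      hc := hc
      hf := rfl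
      rho := hρ
      rho4 := hr4
      w4 := hw4.le
      e0 := hε
      e1 := hε'
      near := hnear
      der := fun i => hder (a i) ((ha i).trans ht1)
      pt := fun i => (ha i).trans ht1
      gam := hγ3
      l1 := hγ1
      l2 := hγ2 }

end WPB
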